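import Mathlib
import Pool.Agent.R821.SnfDefs
import Pool.Agent.R821.KDiag

/-!
# snf-countability passes from `A_2(X)` to `A_3(X)`
-/

set_option autoImplicit false

namespace Pool.Agent.Results.MP_e5b41c_gt.AbelianLevelThree

open Pool.Agent.R821

universe u

/-- **Positive answer to Q2 of MP_e5b41c.** Let `X` be a Tychonoff `k`-space with a regular
`G_δ`-diagonal. If `A_2(X)` is snf-countable, then `A_3(X)` is snf-countable. -/
theorem result (X : Type u) [TopologicalSpace X] [T35Space X] (hk : KD.IsKSpace X)
    (hd : KD.HasRegularGdeltaDiagonal X) (h : SN.SnfCountable (SN.An X 2)) :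
    SN.SnfCountable (SN.An X 3) :=
  SN.snf_main (KD.bb hk hd) h 3

end Pool.Agent.Results.MP_e5b41c_gt.AbelianLevelThree
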